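import Mathlib
import Pool.Prelude.Def_F_c31e40fa
import Pool.Agent.R240.Slim
import Pool.Agent.H637R4.PO.Fin

set_option autoImplicit false

/-! # Areas of sublevel sets of the escape rate and the size of Green's function of the
Multibrot sets -/

namespace Pool.Agent.K1H31.Area

open Complex Filter Topology Set Metric MeasureTheory Pool.Agent.H713R2
open N62a1eb23
open Pool.Agent.H712R2 (P)
open Pool.Agent.Y736.RN
open Pool.Agent.R240.Loc Pool.Agent.R240.Slim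
open Pool.Agent.H637R4.PO

variable {d : ℕ} {ψ : ℂ → ℂ}

theorem ext_of (h : IsExteriorMap (multibrotSet d) ψ) : Ext (multibrotSet d) ψ :=
  ⟨h.diff, h.inj, h.image, h.infinity⟩

/-- polynomial decay of the areas on a sequence of scales makes Green's function big -/
theorem big_of_area (hd : 2 ≤ d) (hψ : IsExteriorMap (multibrotSet d) ψ) {c : ℂ}
    (hc : c ∈ multibrotSet d) {α κ : ℝ} (hα : 0 < α) (hκ : 0 < κ) (h1 : 1 < κ * α)
    (h : ∃ᶠ s : ℝ in 𝓝[>] 0, Ar d c s ≤ s ^ α) : Big ψ κ c := by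
  have hdR : (2 : ℝ) ≤ d := by exact_mod_cast hd
  have hd0 : (0 : ℝ) < d := by linarith
  have hCd : 0 < Cd d := by
    unfold Cd
    have := Real.pi_pos
    positivity
  by_contra hcon
  unfold Big at hcon
  push Not at hcon
  have h2 := hcon 1 one_pos
  -- small radii
  have h3 : ∀ᶠ r : ℝ in 𝓝[>] 0, r ^ κ < 1 / 2 := by
    have ht : Tendsto (fun r : ℝ => r ^ κ) (𝓝[>] 0) (𝓝 (0 ^ κ)) :=
      ((Real.continuousAt_rpow_const 0 κ (Or.inr hκ.le)).tendsto).mono_left nhdsWithin_le_nhds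
    rw [Real.zero_rpow hκ.ne'] at ht
    exact ht.eventually (gt_mem_nhds (by norm_num))
  have h4 : ∀ᶠ r : ℝ in 𝓝[>] 0, r ≤ Cd d * Ar d c (2 * r ^ κ / d) := by
    filter_upwards [h2, h3, self_mem_nhdsWithin] with r hr hr3 hr0
    have hr0' : (0 : ℝ) < r := hr0
    have hrκ : 0 < r ^ κ := Real.rpow_pos_of_pos hr0' _
    refine f_AREA d hd ψ (ext_of hψ) c hc r (2 * r ^ κ) hr0' (by positivity) (by linarith) ?_
    intro w hw hwb
    have h5 := hr w hw (by rw [← dist_eq_norm]; exact (mem_ball.1 hwb).le)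
    rw [one_mul] at h5
    have hw0 : 0 < ‖w‖ := by linarith
    have h6 : ‖w‖ < Real.exp (r ^ κ) := by rwa [← Real.log_lt_iff_lt_exp hw0]
    have h7 : Real.exp (r ^ κ) ≤ 1 + 2 * r ^ κ := by
      have h8 := Real.abs_exp_sub_one_le (x := r ^ κ) (by rw [abs_of_pos hrκ]; linarith)
      rw [abs_of_pos hrκ] at h8
      have := (abs_le.1 h8).2
      linarith
    linarith
  -- substitute
  have hlim : Tendsto (fun s : ℝ => (d * s / 2) ^ (1 / κ)) (𝓝[>] 0) (𝓝[>] 0) := by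
    rw [tendsto_nhdsWithin_iff]
    refine ⟨?_, ?_⟩
    · have h5 : Tendsto (fun s : ℝ => (d * s / 2) ^ (1 / κ)) (𝓝 0) (𝓝 ((d * 0 / 2) ^ (1 / κ))) := by
        apply Filter.Tendsto.rpow_const
        · exact (by fun_prop : Continuous fun s : ℝ => (d : ℝ) * s / 2).tendsto 0
        · right; positivity
      rw [mul_zero, zero_div, Real.zero_rpow (by positivity)] at h5
      exact h5.mono_left nhdsWithin_le_nhds
    · filter_upwards [self_mem_nhdsWithin] with s hs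
      have : (0 : ℝ) < s := hs
      rw [mem_Ioi]
      positivity
  have h5 := hlim.eventually h4
  -- the exponent
  have hgap : 0 < α - 1 / κ := by
    have : 1 / κ < α := by
      rw [div_lt_iff₀ hκ]
      linarith
    linarith
  have h6 : ∀ᶠ s : ℝ in 𝓝[>] 0, Cd d * s ^ (α - 1 / κ) < (d / 2) ^ (1 / κ) := by
    have ht : Tendsto (fun s : ℝ => Cd d * s ^ (α - 1 / κ)) (𝓝[>] 0)
        (𝓝 (Cd d * 0 ^ (α - 1 / κ))) :=
      ((Real.continuousAt_rpow_const 0 _ (Or.inr hgap.le)).tendsto.const_mul _).mono_left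
        nhdsWithin_le_nhds
    rw [Real.zero_rpow hgap.ne', mul_zero] at ht
    exact ht.eventually (gt_mem_nhds (by positivity))
  obtain ⟨s, hs1, hs5, hs6, hs0⟩ := (h.and_eventually (h5.and (h6.and self_mem_nhdsWithin))).exists
  have hs0' : (0 : ℝ) < s := hs0
  have h7 : 2 * ((d * s / 2) ^ (1 / κ)) ^ κ / d = s := by
    rw [← Real.rpow_mul (by positivity), one_div_mul_cancel hκ.ne', Real.rpow_one]
    field_simp
  rw [h7] at hs5
  have h8 : (d * s / 2) ^ (1 / κ) = (d / 2) ^ (1 / κ) * s ^ (1 / κ) := by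
    rw [← Real.mul_rpow (by positivity) hs0'.le]
    congr 1
    ring
  have h9 : s ^ α = s ^ (α - 1 / κ) * s ^ (1 / κ) := by
    rw [← Real.rpow_add hs0']
    congr 1
    ring
  have h10 : 0 < s ^ (1 / κ) := Real.rpow_pos_of_pos hs0' _
  have h11 : (d / 2 : ℝ) ^ (1 / κ) * s ^ (1 / κ) ≤ Cd d * s ^ (α - 1 / κ) * s ^ (1 / κ) := by
    rw [← h8, mul_assoc, ← h9]
    exact hs5.trans (mul_le_mul_of_nonneg_left hs1 hCd.le)
  have h12 := le_of_mul_le_mul_right h11 h10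
  linarith

/-- the dimension of the parameters with small areas -/
theorem dim_area (hd : 2 ≤ d) {p : ℕ} (hp : 1 ≤ p) {α : ℝ} (hα : 0 < α) :
    dimH {c | Ren d c p ∧ ∃ᶠ s : ℝ in 𝓝[>] 0, Ar d c s ≤ s ^ α} ≤
      ENNReal.ofReal (1 / (α * p)) := by
  obtain ⟨β, hβ⟩ := exists_beta (d := d) hd
  have hψ := exteriorMap_of_beta hβ
  have hpR : (1 : ℝ) ≤ p := by exact_mod_cast hp
  have h1 : Tendsto (fun κ : ℝ => ENNReal.ofReal (κ / p)) (𝓝[>] (1 / α))
      (𝓝 (ENNReal.ofReal (1 / α / p))) := by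
    apply ENNReal.tendsto_ofReal
    exact (tendsto_id.div_const _).mono_left nhdsWithin_le_nhds
  rw [div_div] at h1
  apply ge_of_tendsto h1
  filter_upwards [self_mem_nhdsWithin] with κ hκ
  have hκ' : 1 / α < κ := hκ
  have hκ0 : 0 < κ := lt_trans (by positivity) hκ'
  refine (dimH_mono ?_).trans (dim_big hd hp hψ hκ0)
  rintro c ⟨hr, hA⟩
  refine ⟨hr, big_of_area hd hψ (ren_mem hp hr) hα hκ0 ?_ hA⟩
  rwa [div_lt_iff₀ hα] at hκ'

/-- slow decay of the areas, for every period of renormalization -/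
def Fat (d : ℕ) (c : ℂ) : Prop :=
  ∀ p : ℕ, 1 ≤ p → Ren d c p → ∀ α : ℝ, 1 / p < α →
    ∀ᶠ s : ℝ in 𝓝[>] 0, s ^ α < Ar d c s

/-- almost every circle misses the parameters that are not fat -/
theorem ae_fat (hd : 2 ≤ d) (p₀ : ℂ) :
    ∀ᵐ s : ℝ, ∀ c : ℂ, dist c p₀ = s → Fat d c := by
  have h1 : ∀ (p : ℕ) (q : ℚ), 1 ≤ p → (1 : ℝ) / p < q →
      ∀ᵐ s : ℝ, ∀ c : ℂ, dist c p₀ = s →
        ¬ (Ren d c p ∧ ∃ᶠ s : ℝ in 𝓝[>] 0, Ar d c s ≤ s ^ (q : ℝ)) := by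
    intro p q hp hq
    have hpR : (0 : ℝ) < p := by exact_mod_cast hp
    have hq0 : (0 : ℝ) < q := lt_trans (by positivity) hq
    have h2 : dimH {c | Ren d c p ∧ ∃ᶠ s : ℝ in 𝓝[>] 0, Ar d c s ≤ s ^ (q : ℝ)} < 1 := by
      refine (dim_area hd hp hq0).trans_lt ?_
      rw [← ENNReal.ofReal_one, ENNReal.ofReal_lt_ofReal_iff one_pos,
        div_lt_one (by positivity)]
      rwa [div_lt_iff₀ hpR] at hq
    have h3 := circles_null h2 p₀
    have h4 : ∀ᵐ s : ℝ, s ∉ (fun z => dist z p₀) ''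
        {c | Ren d c p ∧ ∃ᶠ s : ℝ in 𝓝[>] 0, Ar d c s ≤ s ^ (q : ℝ)} :=
      measure_eq_zero_iff_ae_notMem.1 h3
    filter_upwards [h4] with s hs c hc hcon
    exact hs ⟨c, hcon, hc⟩
  have h2 : ∀ᵐ s : ℝ, ∀ (p : ℕ) (q : ℚ), 1 ≤ p → (1 : ℝ) / p < q →
      ∀ c : ℂ, dist c p₀ = s →
        ¬ (Ren d c p ∧ ∃ᶠ s : ℝ in 𝓝[>] 0, Ar d c s ≤ s ^ (q : ℝ)) := by
    rw [ae_all_iff]; intro p
    rw [ae_all_iff]; intro q
    by_cases hp : 1 ≤ p
    · by_cases hq : (1 : ℝ) / p < q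
      · filter_upwards [h1 p q hp hq] with s hs _ _
        exact hs
      · exact ae_of_all _ fun s _ h => absurd h hq
    · exact ae_of_all _ fun s h => absurd h hp
  filter_upwards [h2] with s hs c hcs
  intro p hp hr α hα
  by_contra hcon
  obtain ⟨q, hq1, hq2⟩ := exists_rat_btwn hα
  refine hs p q hp hq1 c hcs ⟨hr, ?_⟩
  rw [not_eventually] at hcon
  have h3 : ∀ᶠ s : ℝ in 𝓝[>] 0, s < 1 := nhdsWithin_le_nhds (gt_mem_nhds one_pos)
  refine (hcon.and_eventually (h3.and self_mem_nhdsWithin)).mono ?_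
  rintro s ⟨h4, h5, h6⟩
  have h7 : (0 : ℝ) < s := h6
  exact (not_lt.1 h4).trans (Real.rpow_le_rpow_of_exponent_ge h7 h5.le hq2.le)

/-- a parameter where the Multibrot set is not locally connected spreads to fat ones -/
theorem spread_fat (hd : 2 ≤ d) {p₀ : ℂ} (h : ¬ CIK (multibrotSet d) p₀) :
    ∃ ε : ℝ, 0 < ε ∧ ∀ᵐ s : ℝ, 0 < s → s < ε →
      ∃ c ∈ frontier (multibrotSet d), dist c p₀ = s ∧ Fat d c ∧
        ¬ CIK (multibrotSet d) c := by
  obtain ⟨ε, hε, hs⟩ := spread (Pool.Agent.H712R2.isCompact_multibrot hd)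
    (Pool.Agent.H712R2.isConnected_multibrot hd).isPreconnected h
  refine ⟨ε, hε, ?_⟩
  filter_upwards [ae_fat hd p₀] with s h1 hs0 hsε
  obtain ⟨z, hz, hzs, hzc⟩ := hs s hs0 hsε
  exact ⟨z, ⟨subset_closure hz, fun hi => hzc (cik_interior hi)⟩, hzs, h1 z hzs, hzc⟩

theorem local_iff_fat (hd : 2 ≤ d)
    (h : ∀ c ∈ frontier (multibrotSet d), Fat d c → CIK (multibrotSet d) c) (p : ℂ) :
    CIK (multibrotSet d) p := by
  by_contra hcon
  obtain ⟨ε, hε, h1⟩ := spread_fat hd hcon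
  have h3 : ∃ s : ℝ, s ∈ Ioo 0 ε ∧ (0 < s → s < ε →
      ∃ c ∈ frontier (multibrotSet d), dist c p = s ∧ Fat d c ∧
        ¬ CIK (multibrotSet d) c) := by
    by_contra h4
    push Not at h4
    have h5 : volume (Ioo 0 ε) = 0 := by
      apply measure_mono_null _ h1
      intro s hs hcon
      obtain ⟨h6, h7, h8⟩ := h4 s hs
      obtain ⟨c, hc1, hc2, hc3, hc4⟩ := hcon h6 h7
      exact hc4 (h8 c hc1 hc2 hc3)
    rw [Real.volume_Ioo, ENNReal.ofReal_eq_zero] at h5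
    linarith
  obtain ⟨s, hs, h4⟩ := h3
  obtain ⟨c, hc1, _, hc3, hc4⟩ := h4 hs.1 hs.2
  exact hc4 (h c hc1 hc3)

/-- infinitely renormalizable parameters -/
theorem dim_area_inf (hd : 2 ≤ d) :
    dimH {c | {p : ℕ | Ren d c p}.Infinite ∧ ∃ α : ℝ, 0 < α ∧
      ∃ᶠ s : ℝ in 𝓝[>] 0, Ar d c s ≤ s ^ α} = 0 := by
  obtain ⟨β, hβ⟩ := exists_beta (d := d) hd
  have hψ := exteriorMap_of_beta hβ
  refine dim_inf hd hψ ?_
  rintro c ⟨hr, α, hα, hA⟩
  refine ⟨hr, 2 / α, by positivity, ?_⟩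
  obtain ⟨p, hp, hp0⟩ := hr.exists_gt 0
  refine big_of_area hd hψ (ren_mem hp0 hp) hα (by positivity) ?_ hA
  rw [div_mul_cancel₀ _ hα.ne']
  norm_num

end Pool.Agent.K1H31.Area
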