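import Mathlib
import Pool.Prelude.Def_F_c31e40fa
import Pool.Agent.R240.Sparse
import Pool.Agent.Y736.RN.L

set_option autoImplicit false

/-! # The dimension of the parameters with many superattracting parameters nearby -/

namespace Pool.Agent.K1H31.Cen

open Complex Filter Topology Set Metric MeasureTheory Pool.Agent.H713R2
open N62a1eb23
open Pool.Agent.H712R2 (P)
open Pool.Agent.Y736.HD (Ang)
open Pool.Agent.Y736.RN
open Pool.Agent.R240.Sparse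

variable {d : ℕ} {ψ : ℂ → ℂ}

/-- few centres in all small discs, with exponent `κ` -/
def Few (d : ℕ) (κ : ℝ) (c : ℂ) : Prop :=
  ∀ᶠ r : ℝ in 𝓝[>] 0, ∀ n : ℕ, 1 ≤ n →
    ((cen d n c r).ncard : ℝ) ≤ (d:ℝ) ^ (n - 1) * r ^ κ + Pool.Agent.R240.LL.KL * n * Real.log d

theorem big_of_many (hd : 2 ≤ d) (hψ : IsExteriorMap (multibrotSet d) ψ) {c : ℂ}
    (hc : c ∈ multibrotSet d) {κ κ' : ℝ} (hκ' : 0 < κ') (hκ : κ < κ') (h : ¬ Few d κ c) :
    Big ψ κ' c := by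
  by_contra hB
  refine h (sparse_of hd hψ hc hκ ?_)
  by_contra h2
  rw [not_eventually] at h2
  exact hB (big_of_vol hd hψ hc hκ' (h2.mono fun r hr => not_lt.1 hr))

theorem dim_many (hd : 2 ≤ d) {p : ℕ} (hp : 1 ≤ p) {κ : ℝ} (hκ : 0 ≤ κ) :
    dimH {c | Ren d c p ∧ ¬ Few d κ c} ≤ ENNReal.ofReal (κ / p) := by
  obtain ⟨β, hβ⟩ := exists_beta (d := d) hd
  have hψ := exteriorMap_of_beta hβ
  have h1 : Tendsto (fun κ' : ℝ => ENNReal.ofReal (κ' / p)) (𝓝[>] κ)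
      (𝓝 (ENNReal.ofReal (κ / p))) := by
    apply ENNReal.tendsto_ofReal
    exact (tendsto_id.div_const _).mono_left nhdsWithin_le_nhds
  apply ge_of_tendsto h1
  filter_upwards [self_mem_nhdsWithin] with κ' hκ1
  have hκ' : κ < κ' := hκ1
  have hκ0 : 0 < κ' := lt_of_le_of_lt hκ hκ'
  refine (dimH_mono ?_).trans (dim_big hd hp hψ hκ0)
  rintro c ⟨hr, hA⟩
  exact ⟨hr, big_of_many hd hψ (ren_mem hp hr) hκ0 hκ' hA⟩

/-- infinitely renormalizable parameters -/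
theorem dim_many_inf (hd : 2 ≤ d) :
    dimH {c | {p : ℕ | Ren d c p}.Infinite ∧ ∃ κ : ℝ, 0 < κ ∧ ¬ Few d κ c} = 0 := by
  obtain ⟨β, hβ⟩ := exists_beta (d := d) hd
  have hψ := exteriorMap_of_beta hβ
  refine dim_inf hd hψ ?_
  rintro c ⟨hr, κ, hκ, hA⟩
  obtain ⟨p, hp, hp0⟩ := hr.exists_gt 0
  exact ⟨hr, κ + 1, by positivity, big_of_many hd hψ (ren_mem hp0 hp) (by positivity)
    (by linarith) hA⟩

/-- subexponential bounds for the renormalizations -/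
theorem few_of_weak (hd : 2 ≤ d) {c : ℂ} (hc : c ∈ multibrotSet d)
    (h : ∀ ε : ℝ, 0 < ε → {p : ℕ | ∃ (U : Set ℂ) (r : ℝ), 0 < r ∧
      (∀ n : ℕ, ball (P d (n * p) c) r ⊆ U) ∧
      ∀ z ∈ U, ∀ z' ∈ U, ‖(Pool.Agent.H712R2.fc d c)^[p] z -
        (Pool.Agent.H712R2.fc d c)^[p] z'‖ ≤ Real.exp (ε * p) * r}.Infinite)
    {κ : ℝ} (hκ : 0 < κ) : Few d κ c := by
  obtain ⟨β, hβ⟩ := exists_beta (d := d) hd
  have hψ := exteriorMap_of_beta hβ
  by_contra hcon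
  exact Pool.Agent.Y736.RN.not_big_of_weak hd hψ hc h (κ + 1) (by positivity)
    (big_of_many hd hψ hc (by positivity) (by linarith) hcon)

end Pool.Agent.K1H31.Cen
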